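import Pool.Agent.H63.CM.Defs

/-!
# Cramér's model exists

`μ` = the product (`Measure.infinitePi`) of the measures on `Bool` with mass `p m` at `true` and `1 - p m` at `false`,
`p m = ENNReal.ofReal (1 / log m)` for `m ≥ 3` (at most `1`, as `log 3 ≥ 1`) and `p m = 0` otherwise; independence of the coordinates:
`iIndepFun_infinitePi` (or `Measure.infinitePi_pi` with `iIndepSet_iff_meas_biInter`).
-/

set_option autoImplicit false

open MeasureTheory ProbabilityTheory

namespace Pool.Agent.H63.CM

open Classical in
private noncomputable def pm (m : ℕ) : ENNReal :=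
  if 3 ≤ m then ENNReal.ofReal (1 / Real.log m) else 0

private theorem pm_le (m : ℕ) : pm m ≤ 1 := by
  unfold pm
  split_ifs with h
  · have h3 : (3 : ℝ) ≤ m := by exact_mod_cast h
    have h1 : (1 : ℝ) ≤ Real.log m := by
      rw [Real.le_log_iff_exp_le (by linarith)]
      linarith [Real.exp_one_lt_d9]
    rw [ENNReal.ofReal_le_one, div_le_one (by linarith)]
    exact h1
  · exact zero_le

private noncomputable def nu (m : ℕ) : Measure Bool :=
  pm m • Measure.dirac true + (1 - pm m) • Measure.dirac false

private theorem nu_true (m : ℕ) : nu m {true} = pm m := by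
  unfold nu
  rw [Measure.add_apply, Measure.smul_apply, Measure.smul_apply, Measure.dirac_apply, Measure.dirac_apply]
  simp

private instance nu_prob (m : ℕ) : IsProbabilityMeasure (nu m) := by
  constructor
  unfold nu
  rw [Measure.add_apply, Measure.smul_apply, Measure.smul_apply, measure_univ, measure_univ]
  simp only [smul_eq_mul, mul_one]
  exact add_tsub_cancel_of_le (pm_le m)

private theorem coord (m : ℕ) : Measure.infinitePi nu {ω : ℕ → Bool | m ∈ {k : ℕ | ω k = true}} = pm m := by
  have h1 : {ω : ℕ → Bool | m ∈ {k : ℕ | ω k = true}} = Set.pi (({m} : Finset ℕ) : Set ℕ) fun _ => {true} := by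
    ext ω
    simp
  rw [h1, Measure.infinitePi_pi]
  · rw [Finset.prod_singleton, nu_true]
  · intro i _
    exact MeasurableSet.of_discrete

theorem exists_cramer : ∃ μ : Measure (ℕ → Bool), IsProbabilityMeasure μ ∧ IsCramer μ (fun ω => {m : ℕ | ω m = true}) := by
  have hm : ∀ m : ℕ, MeasurableSet {ω : ℕ → Bool | m ∈ {k : ℕ | ω k = true}} := by
    intro m
    have h0 : MeasurableSet ((fun ω : ℕ → Bool => ω m) ⁻¹' {true}) :=
      (measurable_pi_apply m) (MeasurableSet.of_discrete (s := ({true} : Set Bool)))
    exact h0
  refine ⟨Measure.infinitePi nu, inferInstance, hm, ?_, ?_⟩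
  · rw [iIndepSet_iff_meas_biInter]
    · intro s
      have h1 : (⋂ i ∈ s, {ω : ℕ → Bool | i ∈ {k : ℕ | ω k = true}}) = Set.pi (s : Set ℕ) fun _ => {true} := by
        ext ω
        simp
      rw [h1, Measure.infinitePi_pi]
      · refine Finset.prod_congr rfl fun i _ => ?_
        rw [nu_true]
        exact (coord i).symm
      · intro i _
        exact MeasurableSet.of_discrete
    · exact hm
  · intro m hm
    refine (coord m).trans ?_
    unfold pm
    rw [if_pos hm]

end Pool.Agent.H63.CM
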